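import Mathlib

/-!
# Counting part of the exact `11/16` theorem (helper75 for helper68)
-/

set_option autoImplicit false
set_option linter.unusedSectionVars false

namespace Pool.Agent.K4H68.GA

open Finset

variable {V : Type} [Fintype V] [DecidableEq V]

def M (H : Finset (Finset V)) (a b c d : V) : Bool := decide (({a, b, c, d} : Finset V) ∉ H)

theorem M12 (H : Finset (Finset V)) (a b c d : V) : M H a b c d = M H b a c d := by
  unfold M
  rw [Finset.insert_comm]

theorem M23 (H : Finset (Finset V)) (a b c d : V) : M H a b c d = M H a c b d := by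
  unfold M
  rw [Finset.insert_comm b c]

theorem M34 (H : Finset (Finset V)) (a b c d : V) : M H a b c d = M H a b d c := by
  unfold M
  rw [Finset.pair_comm c d]

theorem M_false (H : Finset (Finset V)) (a b c d : V) : M H a b c d = false ↔ ({a, b, c, d} : Finset V) ∈ H := by
  unfold M
  simp

namespace Cnt

theorem ins {e s : Finset V} {n : ℕ} (he : e.card = n + 1) (hs : s.card ≤ n) (a : V) :
    insert a s = e ↔ a ∈ e ∧ s = e.erase a := by
  constructor
  · rintro rfl
    have h1 : a ∉ s := by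
      intro h
      rw [insert_eq_of_mem h] at he
      omega
    exact ⟨mem_insert_self _ _, (erase_insert h1).symm⟩
  · rintro ⟨h1, rfl⟩
    exact insert_erase h1

theorem t1 {e : Finset V} (he : e.card = 1) : ∑ d : V, (if ({d} : Finset V) = e then (1 : ℤ) else 0) = 1 := by
  obtain ⟨x, rfl⟩ := Finset.card_eq_one.1 he
  simp only [Finset.singleton_inj]
  simp

theorem step {e : Finset V} {n : ℕ} (he : e.card = n + 1) (K : ℤ) (f : Finset V → ℤ) (hf : ∀ a ∈ e, f (e.erase a) = K) :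
    ∑ a : V, (if a ∈ e then f (e.erase a) else 0) = ((n : ℤ) + 1) * K := by
  rw [← Finset.sum_filter]
  have h1 : (univ.filter fun a => a ∈ e) = e := by
    ext x
    simp
  rw [h1, Finset.sum_congr rfl hf, Finset.sum_const, he, nsmul_eq_mul]
  push_cast
  ring

theorem t2 {e : Finset V} (he : e.card = 2) :
    ∑ c : V, ∑ d : V, (if ({c, d} : Finset V) = e then (1 : ℤ) else 0) = 2 := by
  have h1 : ∀ c : V, ∑ d : V, (if ({c, d} : Finset V) = e then (1 : ℤ) else 0) =
      if c ∈ e then ∑ d : V, (if ({d} : Finset V) = e.erase c then (1 : ℤ) else 0) else 0 := by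
    intro c
    by_cases hc : c ∈ e
    · rw [if_pos hc]
      apply Finset.sum_congr rfl
      intro d _
      congr 1
      exact propext ((ins he (by simp) c).trans ⟨fun h => h.2, fun h => ⟨hc, h⟩⟩)
    · rw [if_neg hc]
      apply Finset.sum_eq_zero
      intro d _
      rw [if_neg]
      intro h
      exact hc ((ins he (by simp) c).1 h).1
  rw [Finset.sum_congr rfl fun c _ => h1 c]
  have h2 := step he 1 (fun s => ∑ d : V, (if ({d} : Finset V) = s then (1 : ℤ) else 0)) (fun a ha => t1 (by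
    rw [card_erase_of_mem ha, he]))
  rw [h2]
  norm_num

theorem t3 {e : Finset V} (he : e.card = 3) :
    ∑ b : V, ∑ c : V, ∑ d : V, (if ({b, c, d} : Finset V) = e then (1 : ℤ) else 0) = 6 := by
  have h1 : ∀ b : V, ∑ c : V, ∑ d : V, (if ({b, c, d} : Finset V) = e then (1 : ℤ) else 0) =
      if b ∈ e then ∑ c : V, ∑ d : V, (if ({c, d} : Finset V) = e.erase b then (1 : ℤ) else 0) else 0 := by
    intro b
    by_cases hc : b ∈ e
    · rw [if_pos hc]
      apply Finset.sum_congr rfl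
      intro c _
      apply Finset.sum_congr rfl
      intro d _
      congr 1
      exact propext ((ins he card_le_two b).trans ⟨fun h => h.2, fun h => ⟨hc, h⟩⟩)
    · rw [if_neg hc]
      apply Finset.sum_eq_zero
      intro c _
      apply Finset.sum_eq_zero
      intro d _
      rw [if_neg]
      intro h
      exact hc ((ins he card_le_two b).1 h).1
  rw [Finset.sum_congr rfl fun c _ => h1 c]
  have h2 := step he 2 (fun s => ∑ c : V, ∑ d : V, (if ({c, d} : Finset V) = s then (1 : ℤ) else 0)) (fun a ha => t2 (by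
    rw [card_erase_of_mem ha, he]))
  rw [h2]
  norm_num

theorem t4 {e : Finset V} (he : e.card = 4) :
    ∑ a : V, ∑ b : V, ∑ c : V, ∑ d : V, (if ({a, b, c, d} : Finset V) = e then (1 : ℤ) else 0) = 24 := by
  have h1 : ∀ a : V, ∑ b : V, ∑ c : V, ∑ d : V, (if ({a, b, c, d} : Finset V) = e then (1 : ℤ) else 0) =
      if a ∈ e then ∑ b : V, ∑ c : V, ∑ d : V, (if ({b, c, d} : Finset V) = e.erase a then (1 : ℤ) else 0) else 0 := by
    intro a
    by_cases hc : a ∈ e
    · rw [if_pos hc]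
      apply Finset.sum_congr rfl
      intro b _
      apply Finset.sum_congr rfl
      intro c _
      apply Finset.sum_congr rfl
      intro d _
      congr 1
      exact propext ((ins he card_le_three a).trans ⟨fun h => h.2, fun h => ⟨hc, h⟩⟩)
    · rw [if_neg hc]
      apply Finset.sum_eq_zero
      intro b _
      apply Finset.sum_eq_zero
      intro c _
      apply Finset.sum_eq_zero
      intro d _
      rw [if_neg]
      intro h
      exact hc ((ins he card_le_three a).1 h).1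
  rw [Finset.sum_congr rfl fun c _ => h1 c]
  have h2 := step he 6 (fun s => ∑ b : V, ∑ c : V, ∑ d : V, (if ({b, c, d} : Finset V) = s then (1 : ℤ) else 0))
    (fun a ha => t3 (by rw [card_erase_of_mem ha, he]))
  rw [h2]
  norm_num

/-- the weight -/
def w (H : Finset (Finset V)) (a b c d : V) : ℤ := cond (M H a b c d) 0 1

theorem w_eq (H : Finset (Finset V)) (a b c d : V) :
    w H a b c d = ∑ e ∈ H, (if ({a, b, c, d} : Finset V) = e then (1 : ℤ) else 0) := by
  unfold w
  rw [Finset.sum_ite_eq]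
  by_cases h : ({a, b, c, d} : Finset V) ∈ H
  · rw [(M_false H a b c d).2 h, if_pos h]
    rfl
  · rw [if_neg h]
    have : M H a b c d = true := by
      unfold M
      simpa using h
    rw [this]
    rfl

theorem total (H : Finset (Finset V)) (h4 : ∀ e ∈ H, e.card = 4) :
    ∑ a : V, ∑ b : V, ∑ c : V, ∑ d : V, w H a b c d = 24 * (H.card : ℤ) := by
  have h1 : ∑ a : V, ∑ b : V, ∑ c : V, ∑ d : V, w H a b c d =
      ∑ e ∈ H, ∑ a : V, ∑ b : V, ∑ c : V, ∑ d : V, (if ({a, b, c, d} : Finset V) = e then (1 : ℤ) else 0) := by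
    rw [Finset.sum_comm (s := H)]
    apply Finset.sum_congr rfl
    intro a _
    rw [Finset.sum_comm (s := H)]
    apply Finset.sum_congr rfl
    intro b _
    rw [Finset.sum_comm (s := H)]
    apply Finset.sum_congr rfl
    intro c _
    rw [Finset.sum_comm (s := H)]
    apply Finset.sum_congr rfl
    intro d _
    exact w_eq H a b c d
  rw [h1, Finset.sum_congr rfl fun e he => t4 (h4 e he), Finset.sum_const, nsmul_eq_mul]
  ring

/-- sum over a box -/
def Ph (f : V → V → V → V → ℤ) (X1 X2 X3 X4 : Finset V) : ℤ :=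
  ∑ a ∈ X1, ∑ b ∈ X2, ∑ c ∈ X3, ∑ d ∈ X4, f a b c d

theorem Ph12 {f : V → V → V → V → ℤ} (hf : ∀ a b c d, f a b c d = f b a c d) (X1 X2 X3 X4 : Finset V) :
    Ph f X1 X2 X3 X4 = Ph f X2 X1 X3 X4 := by
  unfold Ph
  rw [Finset.sum_comm]
  apply Finset.sum_congr rfl
  intro b _
  apply Finset.sum_congr rfl
  intro a _
  apply Finset.sum_congr rfl
  intro c _
  apply Finset.sum_congr rfl
  intro d _
  exact hf _ _ _ _

theorem Ph23 {f : V → V → V → V → ℤ} (hf : ∀ a b c d, f a b c d = f a c b d) (X1 X2 X3 X4 : Finset V) :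
    Ph f X1 X2 X3 X4 = Ph f X1 X3 X2 X4 := by
  unfold Ph
  apply Finset.sum_congr rfl
  intro a _
  rw [Finset.sum_comm]
  apply Finset.sum_congr rfl
  intro b _
  apply Finset.sum_congr rfl
  intro c _
  apply Finset.sum_congr rfl
  intro d _
  exact hf _ _ _ _

theorem Ph34 {f : V → V → V → V → ℤ} (hf : ∀ a b c d, f a b c d = f a b d c) (X1 X2 X3 X4 : Finset V) :
    Ph f X1 X2 X3 X4 = Ph f X1 X2 X4 X3 := by
  unfold Ph
  apply Finset.sum_congr rfl
  intro a _
  apply Finset.sum_congr rfl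
  intro b _
  rw [Finset.sum_comm]
  apply Finset.sum_congr rfl
  intro c _
  apply Finset.sum_congr rfl
  intro d _
  exact hf _ _ _ _

theorem split1 (f : V → V → V → V → ℤ) (A X2 X3 X4 : Finset V) :
    Ph f univ X2 X3 X4 = Ph f A X2 X3 X4 + Ph f Aᶜ X2 X3 X4 := by
  unfold Ph
  exact (Finset.sum_add_sum_compl A _).symm

theorem split2 (f : V → V → V → V → ℤ) (A X1 X3 X4 : Finset V) :
    Ph f X1 univ X3 X4 = Ph f X1 A X3 X4 + Ph f X1 Aᶜ X3 X4 := by
  unfold Ph
  rw [← Finset.sum_add_distrib]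
  apply Finset.sum_congr rfl
  intro a _
  exact (Finset.sum_add_sum_compl A _).symm

theorem split3 (f : V → V → V → V → ℤ) (A X1 X2 X4 : Finset V) :
    Ph f X1 X2 univ X4 = Ph f X1 X2 A X4 + Ph f X1 X2 Aᶜ X4 := by
  unfold Ph
  rw [← Finset.sum_add_distrib]
  apply Finset.sum_congr rfl
  intro a _
  rw [← Finset.sum_add_distrib]
  apply Finset.sum_congr rfl
  intro b _
  exact (Finset.sum_add_sum_compl A _).symm

theorem split4 (f : V → V → V → V → ℤ) (A X1 X2 X3 : Finset V) :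
    Ph f X1 X2 X3 univ = Ph f X1 X2 X3 A + Ph f X1 X2 X3 Aᶜ := by
  unfold Ph
  rw [← Finset.sum_add_distrib]
  apply Finset.sum_congr rfl
  intro a _
  rw [← Finset.sum_add_distrib]
  apply Finset.sum_congr rfl
  intro b _
  rw [← Finset.sum_add_distrib]
  apply Finset.sum_congr rfl
  intro c _
  exact (Finset.sum_add_sum_compl A _).symm

theorem mono0 (H : Finset (Finset V)) (A : Finset V) (hA : ∀ e ∈ H, ¬ e ⊆ A) : Ph (w H) A A A A = 0 := by
  unfold Ph
  apply Finset.sum_eq_zero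
  intro a ha
  apply Finset.sum_eq_zero
  intro b hb
  apply Finset.sum_eq_zero
  intro c hc
  apply Finset.sum_eq_zero
  intro d hd
  have h1 : ({a, b, c, d} : Finset V) ∉ H := by
    intro h
    apply hA _ h
    intro x hx
    simp only [mem_insert, mem_singleton] at hx
    rcases hx with rfl | rfl | rfl | rfl <;> assumption
  have h2 : M H a b c d = true := by
    unfold M
    simpa using h1
  unfold w
  rw [h2]
  rfl

theorem sub_eq (f : V → V → V → V → ℤ) (X1 X2 X3 X4 : Finset V) :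
    (∑ a : {x // x ∈ X1}, ∑ b : {x // x ∈ X2}, ∑ c : {x // x ∈ X3}, ∑ d : {x // x ∈ X4}, f a b c d) =
      Ph f X1 X2 X3 X4 := by
  unfold Ph
  rw [← Finset.sum_coe_sort X1 (fun a => ∑ b ∈ X2, ∑ c ∈ X3, ∑ d ∈ X4, f a b c d)]
  apply Finset.sum_congr rfl
  intro a _
  rw [← Finset.sum_coe_sort X2 (fun b => ∑ c ∈ X3, ∑ d ∈ X4, f a b c d)]
  apply Finset.sum_congr rfl
  intro b _
  rw [← Finset.sum_coe_sort X3 (fun c => ∑ d ∈ X4, f a b c d)]
  apply Finset.sum_congr rfl
  intro c _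
  rw [← Finset.sum_coe_sort X4 (fun d => f a b c d)]

theorem card4_ne {a b c d : V} (h : ({a, b, c, d} : Finset V).card = 4) :
    a ≠ b ∧ a ≠ c ∧ a ≠ d ∧ b ≠ c ∧ b ≠ d ∧ c ≠ d := by
  refine ⟨?_, ?_, ?_, ?_, ?_, ?_⟩
  · rintro rfl
    have : ({a, a, c, d} : Finset V) = {a, c, d} := by simp
    rw [this] at h
    have := card_le_three (a := a) (b := c) (c := d)
    omega
  · rintro rfl
    have : ({a, b, a, d} : Finset V) = {a, b, d} := by ext x; simp; tauto
    rw [this] at h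
    have := card_le_three (a := a) (b := b) (c := d)
    omega
  · rintro rfl
    have : ({a, b, c, a} : Finset V) = {a, b, c} := by ext x; simp; tauto
    rw [this] at h
    have := card_le_three (a := a) (b := b) (c := c)
    omega
  · rintro rfl
    have : ({a, b, b, d} : Finset V) = {a, b, d} := by ext x; simp
    rw [this] at h
    have := card_le_three (a := a) (b := b) (c := d)
    omega
  · rintro rfl
    have : ({a, b, c, b} : Finset V) = {a, b, c} := by ext x; simp; tauto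
    rw [this] at h
    have := card_le_three (a := a) (b := b) (c := c)
    omega
  · rintro rfl
    have : ({a, b, c, c} : Finset V) = {a, b, c} := by ext x; simp
    rw [this] at h
    have := card_le_three (a := a) (b := b) (c := c)
    omega

end Cnt

open Cnt in
theorem count24 (H : Finset (Finset V)) (h4 : ∀ e ∈ H, e.card = 4) (A : Finset V) (hA : ∀ e ∈ H, ¬ e ⊆ A)
    (hB : ∀ e ∈ H, ¬ e ⊆ Aᶜ) :
    24 * (H.card : ℤ) =
      4 * (∑ a : {x // x ∈ A}, ∑ a' : {x // x ∈ A}, ∑ a'' : {x // x ∈ A}, ∑ b : {x // x ∈ Aᶜ},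
        cond (M H a a' a'' b) 0 1) +
      6 * (∑ a : {x // x ∈ A}, ∑ a' : {x // x ∈ A}, ∑ b : {x // x ∈ Aᶜ}, ∑ b' : {x // x ∈ Aᶜ},
        cond (M H a a' b b') 0 1) +
      4 * (∑ b : {x // x ∈ Aᶜ}, ∑ b' : {x // x ∈ Aᶜ}, ∑ b'' : {x // x ∈ Aᶜ}, ∑ a : {x // x ∈ A},
        cond (M H b b' b'' a) 0 1) := by
  have e1 := sub_eq (w H) A A A Aᶜ
  have e2 := sub_eq (w H) A A Aᶜ Aᶜ
  have e3 := sub_eq (w H) Aᶜ Aᶜ Aᶜ A
  unfold w at e1 e2 e3
  rw [e1, e2, e3]
  change 24 * (H.card : ℤ) = 4 * Ph (w H) A A A Aᶜ + 6 * Ph (w H) A A Aᶜ Aᶜ + 4 * Ph (w H) Aᶜ Aᶜ Aᶜ A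
  have s12 : ∀ X1 X2 X3 X4, Ph (w H) X1 X2 X3 X4 = Ph (w H) X2 X1 X3 X4 :=
    Ph12 (fun a b c d => by unfold w; rw [M12])
  have s23 : ∀ X1 X2 X3 X4, Ph (w H) X1 X2 X3 X4 = Ph (w H) X1 X3 X2 X4 :=
    Ph23 (fun a b c d => by unfold w; rw [M23])
  have s34 : ∀ X1 X2 X3 X4, Ph (w H) X1 X2 X3 X4 = Ph (w H) X1 X2 X4 X3 :=
    Ph34 (fun a b c d => by unfold w; rw [M34])
  have ht : Ph (w H) univ univ univ univ = 24 * (H.card : ℤ) := total H h4
  have z1 := mono0 H A hA
  have z2 := mono0 H Aᶜ hB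
  rw [← ht]
  simp only [split1 (w H) A, split2 (w H) A, split3 (w H) A, split4 (w H) A]
  rw [z1, z2]
  -- one `B`
  have a1 : Ph (w H) A A Aᶜ A = Ph (w H) A A A Aᶜ := s34 _ _ _ _
  have a2 : Ph (w H) A Aᶜ A A = Ph (w H) A A A Aᶜ := (s23 _ _ _ _).trans a1
  have a3 : Ph (w H) Aᶜ A A A = Ph (w H) A A A Aᶜ := (s12 _ _ _ _).trans a2
  -- two `B`s
  have b1 : Ph (w H) A Aᶜ A Aᶜ = Ph (w H) A A Aᶜ Aᶜ := s23 _ _ _ _
  have b2 : Ph (w H) A Aᶜ Aᶜ A = Ph (w H) A A Aᶜ Aᶜ := (s34 _ _ _ _).trans b1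
  have b3 : Ph (w H) Aᶜ A A Aᶜ = Ph (w H) A A Aᶜ Aᶜ := (s12 _ _ _ _).trans b1
  have b4 : Ph (w H) Aᶜ A Aᶜ A = Ph (w H) A A Aᶜ Aᶜ := (s12 _ _ _ _).trans b2
  have b5 : Ph (w H) Aᶜ Aᶜ A A = Ph (w H) A A Aᶜ Aᶜ := (s23 _ _ _ _).trans b4
  -- three `B`s
  have c1 : Ph (w H) Aᶜ Aᶜ A Aᶜ = Ph (w H) Aᶜ Aᶜ Aᶜ A := s34 _ _ _ _
  have c2 : Ph (w H) Aᶜ A Aᶜ Aᶜ = Ph (w H) Aᶜ Aᶜ Aᶜ A := (s23 _ _ _ _).trans c1
  have c3 : Ph (w H) A Aᶜ Aᶜ Aᶜ = Ph (w H) Aᶜ Aᶜ Aᶜ A := (s12 _ _ _ _).trans c2
  rw [a1, a2, a3, b1, b2, b3, b4, b5, c1, c2, c3]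
  ring

open Cnt in
theorem five (H : Finset (Finset V)) (h4 : ∀ e ∈ H, e.card = 4)
    (free : ∀ S : Finset V, S.card = 5 → ∃ e ⊆ S, e.card = 4 ∧ e ∉ H) (v1 v2 v3 v4 v5 : V) :
    (M H v1 v2 v3 v4 || M H v1 v2 v3 v5 || M H v1 v2 v4 v5 || M H v1 v3 v4 v5 || M H v2 v3 v4 v5) = true := by
  by_contra hcon
  simp only [Bool.not_eq_true, Bool.or_eq_false_iff, M_false] at hcon
  obtain ⟨⟨⟨⟨h1, h2⟩, h3⟩, h5⟩, h6⟩ := hcon
  have n1 := card4_ne (h4 _ h1)
  have n2 := card4_ne (h4 _ h2)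
  have n3 := card4_ne (h4 _ h3)
  have n5 := card4_ne (h4 _ h5)
  have n6 := card4_ne (h4 _ h6)
  obtain ⟨p12, p13, p14, p23, p24, p34⟩ := n1
  obtain ⟨-, -, p15, -, p25, p35⟩ := n2
  obtain ⟨-, -, -, -, -, p45⟩ := n3
  have hc : ({v1, v2, v3, v4, v5} : Finset V).card = 5 := by
    rw [card_insert_of_notMem, h4 _ h6]
    simp only [mem_insert, mem_singleton, not_or]
    exact ⟨p12, p13, p14, p15⟩
  obtain ⟨e, he, hec, heH⟩ := free _ hc
  obtain ⟨x, hx, hxe⟩ := Finset.exists_mem_notMem_of_card_lt_card (s := e) (t := ({v1, v2, v3, v4, v5} : Finset V))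
    (by rw [hec, hc]; norm_num)
  have hee : e = ({v1, v2, v3, v4, v5} : Finset V).erase x := by
    apply Finset.eq_of_subset_of_card_le
    · intro y hy
      rw [mem_erase]
      exact ⟨fun h => hxe (h ▸ hy), he hy⟩
    · rw [card_erase_of_mem hx, hc, hec]
  have key : ∀ Q : Finset V, Q ∈ H → x ∉ Q → Q ⊆ ({v1, v2, v3, v4, v5} : Finset V) → False := by
    intro Q hQ hxQ hQS
    have h7 : Q = e := by
      rw [hee]
      apply Finset.eq_of_subset_of_card_le
      · intro y hy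
        rw [mem_erase]
        exact ⟨fun h => hxQ (h ▸ hy), hQS hy⟩
      · rw [card_erase_of_mem hx, hc, h4 _ hQ]
    exact heH (h7 ▸ hQ)
  simp only [mem_insert, mem_singleton] at hx
  rcases hx with hx | hx | hx | hx | hx
  · refine key _ h6 ?_ ?_
    · rw [hx]
      simp only [mem_insert, mem_singleton, not_or]
      exact ⟨p12, p13, p14, p15⟩
    · intro y hy
      simp only [mem_insert, mem_singleton] at hy
      rcases hy with h | h | h | h <;> simp [h]
  · refine key _ h5 ?_ ?_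
    · rw [hx]
      simp only [mem_insert, mem_singleton, not_or]
      exact ⟨p12.symm, p23, p24, p25⟩
    · intro y hy
      simp only [mem_insert, mem_singleton] at hy
      rcases hy with h | h | h | h <;> simp [h]
  · refine key _ h3 ?_ ?_
    · rw [hx]
      simp only [mem_insert, mem_singleton, not_or]
      exact ⟨p13.symm, p23.symm, p34, p35⟩
    · intro y hy
      simp only [mem_insert, mem_singleton] at hy
      rcases hy with h | h | h | h <;> simp [h]
  · refine key _ h2 ?_ ?_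
    · rw [hx]
      simp only [mem_insert, mem_singleton, not_or]
      exact ⟨p14.symm, p24.symm, p34.symm, p45⟩
    · intro y hy
      simp only [mem_insert, mem_singleton] at hy
      rcases hy with h | h | h | h <;> simp [h]
  · refine key _ h1 ?_ ?_
    · rw [hx]
      simp only [mem_insert, mem_singleton, not_or]
      exact ⟨p15.symm, p25.symm, p35.symm, p45.symm⟩
    · intro y hy
      simp only [mem_insert, mem_singleton] at hy
      rcases hy with h | h | h | h <;> simp [h]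

end Pool.Agent.K4H68.GA
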