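import Mathlib

/-!
# A 2-colourable 4-graph without `K_5^4` of density `11/16` (helper75 for helper68)
-/

set_option autoImplicit false

namespace Pool.Agent.K4H68.GA.Sharp

open Finset

/-- the colour classes -/
abbrev X (k : ℕ) : Type := Fin k → ZMod 2

/-- the good pairs of pairs -/
def Pd (k : ℕ) (p : Finset (X k) × Finset (X k)) : Prop :=
  (p.1.card = 3 ∧ p.2.card = 1) ∨ (p.1.card = 1 ∧ p.2.card = 3) ∨
    (p.1.card = 2 ∧ p.2.card = 2 ∧ (∑ x ∈ p.1, x) ⬝ᵥ (∑ y ∈ p.2, y) = 1)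

instance (k : ℕ) : DecidablePred (Pd k) := fun p => by unfold Pd; infer_instance

/-- pairs `(e ∩ X, e ∩ Y)` for the edges `e` -/
def HP (k : ℕ) : Finset (Finset (X k) × Finset (X k)) := univ.filter (Pd k)

theorem card_X (k : ℕ) : Fintype.card (X k) = 2 ^ k := by
  simp [X, ZMod.card]

theorem add_self' {k : ℕ} (x : X k) : x + x = 0 := by
  funext i
  exact CharTwo.add_self_eq_zero (x i)

/-- `2 #{v : ⟨u, v⟩ = 1} = N` for `u ≠ 0` -/
theorem half {k : ℕ} (u : X k) (hu : u ≠ 0) : 2 * (univ.filter fun v : X k => u ⬝ᵥ v = 1).card = 2 ^ k := by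
  obtain ⟨i, hi⟩ := Function.ne_iff.1 hu
  have hi1 : u i = 1 := by
    have : ∀ z : ZMod 2, z ≠ 0 → z = 1 := by decide
    exact this _ hi
  have h1 : (univ.filter fun v : X k => u ⬝ᵥ v = 1).card = (univ.filter fun v : X k => ¬ (u ⬝ᵥ v = 1)).card := by
    refine Finset.card_bij' (fun v _ => v + Pi.single i 1) (fun v _ => v + Pi.single i 1) ?_ ?_ ?_ ?_
    · intro v hv
      simp only [mem_filter, mem_univ, true_and] at hv ⊢
      rw [dotProduct_add, hv, dotProduct_single, hi1]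
      decide
    · intro v hv
      simp only [mem_filter, mem_univ, true_and] at hv ⊢
      rw [dotProduct_add, dotProduct_single, hi1]
      have : ∀ z : ZMod 2, ¬ z = 1 → z + 1 * 1 = 1 := by decide
      exact this _ hv
    · intro v _
      rw [add_assoc, add_self', add_zero]
    · intro v _
      rw [add_assoc, add_self', add_zero]
  have h2 := Finset.card_filter_add_card_filter_not (s := (univ : Finset (X k))) (p := fun v : X k => u ⬝ᵥ v = 1)
  rw [← h1, card_univ, card_X] at h2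
  omega

/-- `2 #{(u, v) : ⟨u, v⟩ = 1} = (N - 1) N` -/
theorem pairs (k : ℕ) : 2 * (univ.filter fun q : X k × X k => q.1 ⬝ᵥ q.2 = 1).card = (2 ^ k - 1) * 2 ^ k := by
  have h1 : (univ.filter fun q : X k × X k => q.1 ⬝ᵥ q.2 = 1).card =
      ∑ u : X k, (univ.filter fun v : X k => u ⬝ᵥ v = 1).card := by
    rw [Finset.card_eq_sum_card_fiberwise (f := fun q : X k × X k => q.1) (t := univ) (fun _ _ => mem_univ _)]
    apply Finset.sum_congr rfl
    intro u _
    refine Finset.card_bij' (fun q _ => q.2) (fun v _ => (u, v)) ?_ ?_ ?_ ?_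
    · intro q hq
      simp only [mem_filter, mem_univ, true_and] at hq ⊢
      rw [← hq.2]
      exact hq.1
    · intro v hv
      simp only [mem_filter, mem_univ, true_and] at hv ⊢
      exact ⟨hv, trivial⟩
    · intro q hq
      simp only [mem_filter, mem_univ, true_and] at hq
      exact Prod.ext hq.2.symm rfl
    · intro v _
      rfl
  rw [h1, Finset.mul_sum, ← Finset.sum_erase_add _ _ (mem_univ (0 : X k))]
  have h2 : ∑ u ∈ univ.erase (0 : X k), 2 * (univ.filter fun v : X k => u ⬝ᵥ v = 1).card =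
      ∑ u ∈ univ.erase (0 : X k), 2 ^ k := by
    apply Finset.sum_congr rfl
    intro u hu
    exact half u (Finset.ne_of_mem_erase hu)
  have h3 : (univ.filter fun v : X k => (0 : X k) ⬝ᵥ v = 1).card = 0 := by
    rw [Finset.card_eq_zero, Finset.filter_eq_empty_iff]
    intro v _
    rw [zero_dotProduct]
    decide
  rw [h2, h3, Finset.sum_const, Finset.card_erase_of_mem (mem_univ _), card_univ, card_X, smul_eq_mul, mul_zero, add_zero]

/-- sum over ordered pairs -/
theorem ord {k : ℕ} (f : X k → ℕ) (h0 : f 0 = 0) :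
    2 * ∑ s ∈ powersetCard 2 (univ : Finset (X k)), f (∑ x ∈ s, x) = 2 ^ k * ∑ u : X k, f u := by
  have h1 : ∑ q : X k × X k, f (q.1 + q.2) = 2 ^ k * ∑ u : X k, f u := by
    rw [Fintype.sum_prod_type]
    have : ∀ x : X k, ∑ y : X k, f (x + y) = ∑ u : X k, f u := by
      intro x
      exact Fintype.sum_equiv (Equiv.addLeft x) _ _ (fun y => rfl)
    rw [Finset.sum_congr rfl (fun x _ => this x), Finset.sum_const, card_univ, card_X, smul_eq_mul]
  rw [← h1]
  have h2 : ∑ q : X k × X k, f (q.1 + q.2) = ∑ q ∈ (univ : Finset (X k)).offDiag, f (q.1 + q.2) := by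
    symm
    apply Finset.sum_subset (Finset.subset_univ _)
    intro q _ hq
    rw [mem_offDiag] at hq
    have : q.1 = q.2 := by
      by_contra h
      exact hq ⟨mem_univ _, mem_univ _, h⟩
    rw [this, add_self', h0]
  rw [h2]
  have h3 : ∀ q ∈ (univ : Finset (X k)).offDiag, ({q.1, q.2} : Finset (X k)) ∈ powersetCard 2 (univ : Finset (X k)) := by
    intro q hq
    rw [mem_offDiag] at hq
    rw [mem_powersetCard]
    exact ⟨subset_univ _, card_pair hq.2.2⟩
  rw [← Finset.sum_fiberwise_of_maps_to h3, Finset.mul_sum]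
  apply Finset.sum_congr rfl
  intro s hs
  rw [mem_powersetCard] at hs
  obtain ⟨a, b, hab, rfl⟩ := Finset.card_eq_two.1 hs.2
  have h4 : (univ : Finset (X k)).offDiag.filter (fun q => ({q.1, q.2} : Finset (X k)) = {a, b}) = {(a, b), (b, a)} := by
    ext q
    obtain ⟨x, y⟩ := q
    simp only [mem_filter, mem_offDiag, mem_univ, true_and, mem_insert, mem_singleton, Prod.mk.injEq]
    constructor
    · rintro ⟨hne, he⟩
      have hx : x ∈ ({a, b} : Finset (X k)) := by rw [← he]; simp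
      have hy : y ∈ ({a, b} : Finset (X k)) := by rw [← he]; simp
      simp only [mem_insert, mem_singleton] at hx hy
      rcases hx with rfl | rfl <;> rcases hy with rfl | rfl
      · exact absurd rfl hne
      · left; exact ⟨rfl, rfl⟩
      · right; exact ⟨rfl, rfl⟩
      · exact absurd rfl hne
    · rintro (⟨rfl, rfl⟩ | ⟨rfl, rfl⟩)
      · exact ⟨hab, rfl⟩
      · exact ⟨hab.symm, Finset.pair_comm _ _⟩
  have h5 : (a, b) ≠ (b, a) := by
    intro h
    exact hab (Prod.ext_iff.1 h).1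
  rw [h4, Finset.sum_pair h5, Finset.sum_pair hab, add_comm b a]
  ring

theorem card22 (k : ℕ) :
    8 * ((univ : Finset (Finset (X k) × Finset (X k))).filter fun p => p.1.card = 2 ∧ p.2.card = 2 ∧
      (∑ x ∈ p.1, x) ⬝ᵥ (∑ y ∈ p.2, y) = 1).card = (2 ^ k) ^ 3 * (2 ^ k - 1) := by
  have h1 : ((univ : Finset (Finset (X k) × Finset (X k))).filter fun p => p.1.card = 2 ∧ p.2.card = 2 ∧
      (∑ x ∈ p.1, x) ⬝ᵥ (∑ y ∈ p.2, y) = 1).card =
      ∑ s ∈ powersetCard 2 (univ : Finset (X k)), ∑ t ∈ powersetCard 2 (univ : Finset (X k)),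
        (if (∑ x ∈ s, x) ⬝ᵥ (∑ y ∈ t, y) = 1 then 1 else 0) := by
    rw [← Finset.sum_product', ← Finset.card_filter]
    congr 1
    ext p
    simp only [mem_filter, mem_univ, true_and, mem_product, mem_powersetCard, subset_univ]
    tauto
  have h2 : ∀ w : X k, 2 * ∑ t ∈ powersetCard 2 (univ : Finset (X k)), (if w ⬝ᵥ (∑ y ∈ t, y) = 1 then 1 else 0) =
      2 ^ k * ∑ v : X k, (if w ⬝ᵥ v = 1 then 1 else 0) := by
    intro w
    exact ord (fun v => if w ⬝ᵥ v = 1 then 1 else 0) (by rw [dotProduct_zero]; decide)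
  have h3 := ord (k := k) (fun u => ∑ v : X k, (if u ⬝ᵥ v = 1 then 1 else 0)) (by
    apply Finset.sum_eq_zero
    intro v _
    rw [zero_dotProduct]
    decide)
  have h4 : ∑ u : X k, ∑ v : X k, (if u ⬝ᵥ v = 1 then 1 else 0) =
      (univ.filter fun q : X k × X k => q.1 ⬝ᵥ q.2 = 1).card := by
    rw [Finset.card_filter, Fintype.sum_prod_type]
  have h5 := pairs k
  rw [h4] at h3
  rw [h1]
  have h6 : 8 * ∑ s ∈ powersetCard 2 (univ : Finset (X k)), ∑ t ∈ powersetCard 2 (univ : Finset (X k)),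
        (if (∑ x ∈ s, x) ⬝ᵥ (∑ y ∈ t, y) = 1 then 1 else 0) =
      4 * ∑ s ∈ powersetCard 2 (univ : Finset (X k)), (2 * ∑ t ∈ powersetCard 2 (univ : Finset (X k)),
        (if (∑ x ∈ s, x) ⬝ᵥ (∑ y ∈ t, y) = 1 then 1 else 0)) := by
    rw [← Finset.mul_sum]
    ring
  rw [h6, Finset.sum_congr rfl (fun s _ => h2 (∑ x ∈ s, x)), ← Finset.mul_sum]
  calc 4 * (2 ^ k * ∑ s ∈ powersetCard 2 (univ : Finset (X k)), ∑ v : X k, (if (∑ x ∈ s, x) ⬝ᵥ v = 1 then 1 else 0))
      = 2 * 2 ^ k * (2 * ∑ s ∈ powersetCard 2 (univ : Finset (X k)), ∑ v : X k,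
          (if (∑ x ∈ s, x) ⬝ᵥ v = 1 then 1 else 0)) := by ring
    _ = 2 * 2 ^ k * (2 ^ k * (univ.filter fun q : X k × X k => q.1 ⬝ᵥ q.2 = 1).card) := by rw [h3]
    _ = (2 ^ k) ^ 2 * (2 * (univ.filter fun q : X k × X k => q.1 ⬝ᵥ q.2 = 1).card) := by ring
    _ = (2 ^ k) ^ 2 * ((2 ^ k - 1) * 2 ^ k) := by rw [h5]
    _ = _ := by ring

theorem card31 (k i j : ℕ) :
    ((univ : Finset (Finset (X k) × Finset (X k))).filter fun p => p.1.card = i ∧ p.2.card = j).card =
      (2 ^ k).choose i * (2 ^ k).choose j := by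
  have h1 : ((univ : Finset (Finset (X k) × Finset (X k))).filter fun p => p.1.card = i ∧ p.2.card = j) =
      powersetCard i (univ : Finset (X k)) ×ˢ powersetCard j (univ : Finset (X k)) := by
    ext p
    simp only [mem_filter, mem_univ, true_and, mem_product, mem_powersetCard, subset_univ]
  rw [h1, card_product, card_powersetCard, card_powersetCard, card_univ, card_X]

theorem card_HP (k : ℕ) :
    24 * (HP k).card = 8 * (2 ^ k) ^ 2 * (2 ^ k - 1) * (2 ^ k - 2) + 3 * (2 ^ k) ^ 3 * (2 ^ k - 1) := by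
  have h1 : HP k = ((univ : Finset (Finset (X k) × Finset (X k))).filter fun p => p.1.card = 3 ∧ p.2.card = 1) ∪
      (((univ : Finset (Finset (X k) × Finset (X k))).filter fun p => p.1.card = 1 ∧ p.2.card = 3) ∪
      ((univ : Finset (Finset (X k) × Finset (X k))).filter fun p => p.1.card = 2 ∧ p.2.card = 2 ∧
      (∑ x ∈ p.1, x) ⬝ᵥ (∑ y ∈ p.2, y) = 1)) := by
    rw [← Finset.filter_or, ← Finset.filter_or]
    rfl
  have hd1 : Disjoint ((univ : Finset (Finset (X k) × Finset (X k))).filter fun p => p.1.card = 3 ∧ p.2.card = 1)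
      (((univ : Finset (Finset (X k) × Finset (X k))).filter fun p => p.1.card = 1 ∧ p.2.card = 3) ∪
      ((univ : Finset (Finset (X k) × Finset (X k))).filter fun p => p.1.card = 2 ∧ p.2.card = 2 ∧
      (∑ x ∈ p.1, x) ⬝ᵥ (∑ y ∈ p.2, y) = 1)) := by
    rw [Finset.disjoint_left]
    intro p hp hq
    simp only [mem_union, mem_filter, mem_univ, true_and] at hp hq
    omega
  have hd2 : Disjoint ((univ : Finset (Finset (X k) × Finset (X k))).filter fun p => p.1.card = 1 ∧ p.2.card = 3)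
      ((univ : Finset (Finset (X k) × Finset (X k))).filter fun p => p.1.card = 2 ∧ p.2.card = 2 ∧
      (∑ x ∈ p.1, x) ⬝ᵥ (∑ y ∈ p.2, y) = 1) := by
    rw [Finset.disjoint_left]
    intro p hp hq
    simp only [mem_filter, mem_univ, true_and] at hp hq
    omega
  rw [h1, card_union_of_disjoint hd1, card_union_of_disjoint hd2, card31, card31, Nat.choose_one_right]
  have h2 := card22 k
  have h3 : 6 * (2 ^ k).choose 3 = 2 ^ k * (2 ^ k - 1) * (2 ^ k - 2) := by
    have := Nat.descFactorial_eq_factorial_mul_choose (2 ^ k) 3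
    simp only [Nat.descFactorial_succ, Nat.descFactorial_zero, Nat.factorial, mul_one, Nat.succ_eq_add_one, Nat.sub_zero] at this
    rw [show (6 : ℕ) = (2 + 1) * ((1 + 1) * ((0 + 1) * 1)) by norm_num]
    rw [show ((2 + 1) * ((1 + 1) * ((0 + 1) * 1))) = 6 by norm_num]
    have h4 : (2 ^ k - 2) * ((2 ^ k - 1) * 2 ^ k) = 6 * (2 ^ k).choose 3 := by
      simpa using this
    rw [← h4]
    ring
  calc 24 * ((2 ^ k).choose 3 * 2 ^ k + (2 ^ k * (2 ^ k).choose 3 +
        ((univ : Finset (Finset (X k) × Finset (X k))).filter fun p => p.1.card = 2 ∧ p.2.card = 2 ∧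
      (∑ x ∈ p.1, x) ⬝ᵥ (∑ y ∈ p.2, y) = 1).card))
      = 8 * 2 ^ k * (6 * (2 ^ k).choose 3) + 3 * (8 * ((univ : Finset (Finset (X k) × Finset (X k))).filter fun p =>
        p.1.card = 2 ∧ p.2.card = 2 ∧ (∑ x ∈ p.1, x) ⬝ᵥ (∑ y ∈ p.2, y) = 1).card) := by ring
    _ = _ := by rw [h2, h3]; ring

/-- among the three pairs of a 3-set one has dot product `0` with `v` -/
theorem three {k : ℕ} (a b c v : X k) :
    (a + b) ⬝ᵥ v ≠ 1 ∨ (b + c) ⬝ᵥ v ≠ 1 ∨ (a + c) ⬝ᵥ v ≠ 1 := by
  by_contra h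
  push Not at h
  obtain ⟨h1, h2, h3⟩ := h
  have h4 : (a + b) ⬝ᵥ v + (b + c) ⬝ᵥ v + (a + c) ⬝ᵥ v = 0 := by
    rw [← add_dotProduct, ← add_dotProduct]
    have : a + b + (b + c) + (a + c) = 0 := by
      have : a + b + (b + c) + (a + c) = (a + a) + (b + b) + (c + c) := by abel
      rw [this]
      simp [add_self']
    rw [this, zero_dotProduct]
  rw [h1, h2, h3] at h4
  revert h4
  decide

/-- in a 3-set there is a pair whose sum has dot product `≠ 1` with `v` -/
theorem three' {k : ℕ} (s : Finset (X k)) (hs : s.card = 3) (v : X k) :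
    ∃ t ⊆ s, t.card = 2 ∧ (∑ x ∈ t, x) ⬝ᵥ v ≠ 1 := by
  obtain ⟨a, b, c, hab, hac, hbc, rfl⟩ := Finset.card_eq_three.1 hs
  rcases three a b c v with h | h | h
  · refine ⟨{a, b}, ?_, card_pair hab, by rwa [sum_pair hab]⟩
    intro x hx
    simp only [mem_insert, mem_singleton] at hx ⊢
    tauto
  · refine ⟨{b, c}, ?_, card_pair hbc, by rwa [sum_pair hbc]⟩
    intro x hx
    simp only [mem_insert, mem_singleton] at hx ⊢
    tauto
  · refine ⟨{a, c}, ?_, card_pair hac, by rwa [sum_pair hac]⟩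
    intro x hx
    simp only [mem_insert, mem_singleton] at hx ⊢
    tauto

theorem free {k : ℕ} (s t : Finset (X k)) (h : s.card + t.card = 5) :
    ∃ s' ⊆ s, ∃ t' ⊆ t, s'.card + t'.card = 4 ∧ ¬ Pd k (s', t') := by
  have hcases : 4 ≤ s.card ∨ 4 ≤ t.card ∨ (s.card = 3 ∧ t.card = 2) ∨ (s.card = 2 ∧ t.card = 3) := by omega
  rcases hcases with h1 | h1 | ⟨h1, h2⟩ | ⟨h1, h2⟩
  · obtain ⟨s', hs', hc⟩ := Finset.exists_subset_card_eq h1
    refine ⟨s', hs', ∅, empty_subset _, by simp [hc], ?_⟩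
    unfold Pd
    simp [hc]
  · obtain ⟨t', ht', hc⟩ := Finset.exists_subset_card_eq h1
    refine ⟨∅, empty_subset _, t', ht', by simp [hc], ?_⟩
    unfold Pd
    simp [hc]
  · obtain ⟨s', hs', hc, hd⟩ := three' s h1 (∑ y ∈ t, y)
    refine ⟨s', hs', t, Subset.refl _, by omega, ?_⟩
    rintro (h | h | h)
    · have := h.1; simp only at this; omega
    · have := h.1; simp only at this; omega
    · exact hd h.2.2
  · obtain ⟨t', ht', hc, hd⟩ := three' t h2 (∑ y ∈ s, y)
    refine ⟨s, Subset.refl _, t', ht', by omega, ?_⟩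
    rintro (h | h | h)
    · have := h.2; simp only at this; omega
    · have := h.2; simp only at this; omega
    · exact hd (by rw [dotProduct_comm]; exact h.2.2)

theorem main (k : ℕ) (V : Type) [Fintype V] [DecidableEq V] (f : X k ⊕ X k ≃ V) :
    ∃ (H : Finset (Finset V)) (A : Finset V), (∀ e ∈ H, e.card = 4) ∧
      (∀ S : Finset V, S.card = 5 → ∃ e ⊆ S, e.card = 4 ∧ e ∉ H) ∧
      (∀ e ∈ H, ¬ e ⊆ A) ∧ (∀ e ∈ H, ¬ e ⊆ Aᶜ) ∧
      24 * H.card = 8 * (2 ^ k) ^ 2 * (2 ^ k - 1) * (2 ^ k - 2) + 3 * (2 ^ k) ^ 3 * (2 ^ k - 1) := by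
  -- the embedding of pairs of sets
  obtain ⟨g, hg⟩ : ∃ g : Finset (X k) × Finset (X k) → Finset V, ∀ p, g p = (p.1.disjSum p.2).map f.toEmbedding :=
    ⟨_, fun _ => rfl⟩
  have hinj : Function.Injective g := by
    intro p q h
    rw [hg, hg] at h
    have h1 := Finset.map_injective _ h
    rw [Finset.disjSum_inj] at h1
    exact Prod.ext h1.1 h1.2
  have hcard : ∀ p, (g p).card = p.1.card + p.2.card := by
    intro p
    rw [hg, card_map, card_disjSum]
  have hsurj : ∀ S : Finset V, ∃ p, g p = S := by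
    intro S
    refine ⟨((S.map f.symm.toEmbedding).toLeft, (S.map f.symm.toEmbedding).toRight), ?_⟩
    rw [hg, toLeft_disjSum_toRight]
    ext x
    simp
  have hmono : ∀ s t s' t' : Finset (X k), s' ⊆ s → t' ⊆ t → g (s', t') ⊆ g (s, t) := by
    intro s t s' t' h1 h2
    rw [hg, hg]
    exact Finset.map_subset_map.2 (Finset.disjSum_mono h1 h2)
  have hbase : ∀ p ∈ HP k, Pd k p := fun p hp => (mem_filter.1 hp).2
  refine ⟨(HP k).map ⟨g, hinj⟩, g (univ, ∅), ?_, ?_, ?_, ?_, ?_⟩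
  · intro e he
    obtain ⟨p, hp, rfl⟩ := Finset.mem_map.1 he
    have h1 := hbase p hp
    have h2 := hcard p
    change (g p).card = 4
    rw [h2]
    rcases h1 with h | h | h <;> omega
  · intro S hS
    obtain ⟨p, rfl⟩ := hsurj S
    rw [hcard] at hS
    obtain ⟨s', hs', t', ht', hc, hn⟩ := free p.1 p.2 hS
    refine ⟨g (s', t'), hmono _ _ _ _ hs' ht', by rw [hcard]; exact hc, ?_⟩
    intro hmem
    obtain ⟨q, hq, hqe⟩ := Finset.mem_map.1 hmem
    have : q = (s', t') := hinj hqe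
    subst this
    exact hn (hbase _ hq)
  · intro e he hsub
    obtain ⟨p, hp, rfl⟩ := Finset.mem_map.1 he
    have h1 := hbase p hp
    have hne : p.2.Nonempty := by
      rw [← Finset.card_pos]
      rcases h1 with h | h | h <;> omega
    obtain ⟨y, hy⟩ := hne
    have h2 : f (Sum.inr y) ∈ g p := by
      rw [hg]
      exact Finset.mem_map.2 ⟨Sum.inr y, by simpa using hy, rfl⟩
    have h3 := hsub h2
    rw [hg] at h3
    obtain ⟨z, hz, hze⟩ := Finset.mem_map.1 h3
    have : z = Sum.inr y := f.injective hze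
    subst this
    simp at hz
  · intro e he hsub
    obtain ⟨p, hp, rfl⟩ := Finset.mem_map.1 he
    have h1 := hbase p hp
    have hne : p.1.Nonempty := by
      rw [← Finset.card_pos]
      rcases h1 with h | h | h <;> omega
    obtain ⟨y, hy⟩ := hne
    have h2 : f (Sum.inl y) ∈ g p := by
      rw [hg]
      exact Finset.mem_map.2 ⟨Sum.inl y, by simpa using hy, rfl⟩
    have h3 := hsub h2
    rw [mem_compl] at h3
    apply h3
    rw [hg]
    exact Finset.mem_map.2 ⟨Sum.inl y, by simp, rfl⟩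
  · rw [card_map]
    exact card_HP k

end Pool.Agent.K4H68.GA.Sharp

namespace Pool.Agent.K4H68.GA

theorem sharp (k : ℕ) : ∃ (H : Finset (Finset (Fin (2 * 2 ^ k)))) (A : Finset (Fin (2 * 2 ^ k))),
    (∀ e ∈ H, e.card = 4) ∧
    (∀ S : Finset (Fin (2 * 2 ^ k)), S.card = 5 → ∃ e ⊆ S, e.card = 4 ∧ e ∉ H) ∧
    (∀ e ∈ H, ¬ e ⊆ A) ∧ (∀ e ∈ H, ¬ e ⊆ Aᶜ) ∧
    24 * H.card = 8 * (2 ^ k) ^ 2 * (2 ^ k - 1) * (2 ^ k - 2) + 3 * (2 ^ k) ^ 3 * (2 ^ k - 1) := by
  have h1 : Fintype.card (Sharp.X k ⊕ Sharp.X k) = Fintype.card (Fin (2 * 2 ^ k)) := by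
    rw [Fintype.card_sum, Sharp.card_X, Fintype.card_fin]
    ring
  exact Sharp.main k _ (Fintype.equivOfCardEq h1)

end Pool.Agent.K4H68.GA
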